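import Pool.Agent.Helper85.IW.Statements
set_option autoImplicit false
set_option maxSynthPendingDepth 3

open MeasureTheory Complex Filter Topology
open scoped ENNReal NNReal ComplexConjugate

noncomputable section

namespace Helper85.IW.M_A1

open Helper72.BA Helper85.IW

theorem one_add_pow (k : ℕ) {r : ℝ} (hr : 0 ≤ r) : (1 + r) ^ k ≤ 2 ^ k * (1 + r ^ k) := by
  rcases le_total r 1 with h | h
  · calc (1 + r) ^ k ≤ 2 ^ k := pow_le_pow_left₀ (by linarith) (by linarith) k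
      _ ≤ 2 ^ k * (1 + r ^ k) := by
        have : (0:ℝ) ≤ r ^ k := pow_nonneg hr k
        nlinarith [pow_pos (show (0:ℝ) < 2 by norm_num) k]
  · calc (1 + r) ^ k ≤ (2 * r) ^ k := pow_le_pow_left₀ (by linarith) (by linarith) k
      _ = 2 ^ k * r ^ k := mul_pow _ _ _
      _ ≤ 2 ^ k * (1 + r ^ k) := by
        have : (0:ℝ) < 2 ^ k := pow_pos (by norm_num) k
        nlinarith

theorem rap_bdd {g : ℂ → ℂ} (hg : Rap g) (k : ℕ) : ∃ K : ℝ, ∀ ξ, (1 + ‖ξ‖) ^ k * ‖g ξ‖ ≤ K := by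
  obtain ⟨K0, h0⟩ := hg.bdd 0
  obtain ⟨K1, h1⟩ := hg.bdd k
  refine ⟨2 ^ k * (K0 + K1), fun ξ => ?_⟩
  have h2 := one_add_pow k (norm_nonneg ξ)
  have h3 := h0 ξ
  have h4 := h1 ξ
  rw [pow_zero, one_mul] at h3
  calc (1 + ‖ξ‖) ^ k * ‖g ξ‖ ≤ (2 ^ k * (1 + ‖ξ‖ ^ k)) * ‖g ξ‖ :=
        mul_le_mul_of_nonneg_right h2 (norm_nonneg _)
    _ = 2 ^ k * (‖g ξ‖ + ‖ξ‖ ^ k * ‖g ξ‖) := by ring
    _ ≤ 2 ^ k * (K0 + K1) := by
        apply mul_le_mul_of_nonneg_left _ (by positivity)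
        linarith

theorem rap_int {g : ℂ → ℂ} (hg : Rap g) (k : ℕ) : Integrable (fun ξ => ‖ξ‖ ^ k * ‖g ξ‖) := by
  obtain ⟨K, hK⟩ := rap_bdd hg (k + 3)
  have h3 : Integrable (fun ξ : ℂ => (1 + ‖ξ‖) ^ (-(3:ℝ))) :=
    integrable_one_add_norm (by rw [Complex.finrank_real_complex]; norm_num)
  refine Integrable.mono' (h3.const_mul K) ?_ (Eventually.of_forall fun ξ => ?_)
  · exact ((continuous_norm.pow k).measurable.mul hg.meas.norm).aestronglyMeasurable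
  · have hpos : (0:ℝ) < 1 + ‖ξ‖ := by positivity
    rw [Real.norm_of_nonneg (by positivity), Real.rpow_neg hpos.le, ← div_eq_mul_inv,
      le_div_iff₀ (by positivity)]
    have h4 : (1 + ‖ξ‖) ^ (3:ℝ) = (1 + ‖ξ‖) ^ 3 := by
      rw [← Real.rpow_natCast]; norm_num
    rw [h4]
    calc ‖ξ‖ ^ k * ‖g ξ‖ * (1 + ‖ξ‖) ^ 3 ≤ (1 + ‖ξ‖) ^ k * ‖g ξ‖ * (1 + ‖ξ‖) ^ 3 := by
          gcongr
          linarith [norm_nonneg ξ]
      _ = (1 + ‖ξ‖) ^ (k + 3) * ‖g ξ‖ := by rw [pow_add]; ring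
      _ ≤ K := hK ξ

theorem main : StA1 := by
  refine ⟨fun g hg => ?_, fun g m hg hm hb => ?_⟩
  · have hint : Integrable g := by
      have h := rap_int hg 0
      simp only [pow_zero, one_mul] at h
      exact (integrable_norm_iff hg.meas.aestronglyMeasurable).1 h
    refine ⟨hint, ⟨hg.meas, hint, ?_⟩, rap_int hg⟩
    obtain ⟨K, hK⟩ := hg.bdd 0
    exact ⟨K, fun z => by simpa using hK z⟩
  · obtain ⟨k0, K, hK⟩ := hb
    refine ⟨hm.mul hg.meas, fun k => ?_⟩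
    obtain ⟨K', hK'⟩ := rap_bdd hg (k0 + k)
    refine ⟨|K| * K', fun ξ => ?_⟩
    have h1 : (0:ℝ) ≤ (1 + ‖ξ‖) ^ k0 := by positivity
    calc ‖ξ‖ ^ k * ‖m ξ * g ξ‖ = ‖ξ‖ ^ k * (‖m ξ‖ * ‖g ξ‖) := by rw [norm_mul]
      _ ≤ (1 + ‖ξ‖) ^ k * ((|K| * (1 + ‖ξ‖) ^ k0) * ‖g ξ‖) := by
          have h2 : ‖m ξ‖ ≤ |K| * (1 + ‖ξ‖) ^ k0 :=
            (hK ξ).trans (mul_le_mul_of_nonneg_right (le_abs_self K) h1)
          gcongr
          linarith [norm_nonneg ξ]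
      _ = |K| * ((1 + ‖ξ‖) ^ (k0 + k) * ‖g ξ‖) := by rw [pow_add]; ring
      _ ≤ |K| * K' := mul_le_mul_of_nonneg_left (hK' ξ) (abs_nonneg K)

end Helper85.IW.M_A1
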