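import Pool.Agent.Helper85.IW.Statements
set_option autoImplicit false
set_option maxSynthPendingDepth 3

open MeasureTheory Complex Filter Topology
open scoped ENNReal NNReal ComplexConjugate

noncomputable section

namespace Helper85.IW.M_A2

open Helper72.BA Helper85.IW

theorem norm_ch (z ξ : ℂ) : ‖ch z ξ‖ = 1 := by
  unfold ch
  rw [show (2 * (Real.pi : ℂ) * I * ((z.re * ξ.re + z.im * ξ.im : ℝ) : ℂ)) =
    ((2 * Real.pi * (z.re * ξ.re + z.im * ξ.im) : ℝ) : ℂ) * I by push_cast; ring]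
  exact Complex.norm_exp_ofReal_mul_I _

theorem norm_integrand (g : ℂ → ℂ) (t : ℝ) (z ξ : ℂ) :
    ‖ch z ξ * (((Real.exp (-(max t 0) * ‖ξ‖ ^ 2) : ℝ) : ℂ) * g ξ)‖ ≤ ‖g ξ‖ := by
  rw [norm_mul, norm_mul, norm_ch, one_mul, Complex.norm_real,
    Real.norm_of_nonneg (Real.exp_nonneg _)]
  have h1 : Real.exp (-(max t 0) * ‖ξ‖ ^ 2) ≤ 1 := by
    rw [Real.exp_le_one_iff]
    have h2 : 0 ≤ max t 0 := le_max_right _ _
    have h3 : 0 ≤ ‖ξ‖ ^ 2 := by positivity
    nlinarith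
  calc Real.exp (-(max t 0) * ‖ξ‖ ^ 2) * ‖g ξ‖ ≤ 1 * ‖g ξ‖ :=
        mul_le_mul_of_nonneg_right h1 (norm_nonneg _)
    _ = ‖g ξ‖ := one_mul _

theorem main (h1 : StA1) : StA2 := by
  intro g hg
  have hint : Integrable (fun ξ => ‖g ξ‖) := ((h1.1 g hg).1).norm
  have hmeas : ∀ q : ℝ × ℂ, AEStronglyMeasurable
      (fun ξ : ℂ => ch q.2 ξ * (((Real.exp (-(max q.1 0) * ‖ξ‖ ^ 2) : ℝ) : ℂ) * g ξ)) volume := by
    intro q
    apply Measurable.aestronglyMeasurable
    apply Measurable.mul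
    · unfold ch; fun_prop
    · apply Measurable.mul _ hg.meas
      fun_prop
  refine ⟨fun t z => ?_, ?_⟩
  · unfold HE
    exact norm_integral_le_of_norm_le hint (Eventually.of_forall fun ξ => norm_integrand g t z ξ)
  · unfold HE
    refine continuous_of_dominated hmeas
      (fun q => Eventually.of_forall fun ξ => norm_integrand g q.1 q.2 ξ) hint
      (Eventually.of_forall fun ξ => ?_)
    unfold ch
    fun_prop

end Helper85.IW.M_A2
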