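import Pool.Agent.Helper85.IW.Statements
set_option autoImplicit false
set_option maxSynthPendingDepth 3

open MeasureTheory Complex Filter Topology
open scoped ENNReal NNReal ComplexConjugate

noncomputable section

namespace Helper85.IW.M_D0

open Helper72.BA Helper85.IW

theorem norm_expand (a δ : ℂ) :
    |‖a‖ * (‖a + δ‖ - ‖a‖) - (conj a * δ).re| ≤ ‖δ‖ ^ 2 := by
  have h1 : ‖a + δ‖ ^ 2 = ‖a‖ ^ 2 + 2 * (conj a * δ).re + ‖δ‖ ^ 2 := by
    simp only [Complex.sq_norm, Complex.normSq_apply, Complex.add_re, Complex.add_im,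
      Complex.mul_re, Complex.conj_re, Complex.conj_im]
    ring
  have h2 : |‖a + δ‖ - ‖a‖| ≤ ‖δ‖ := by
    have := abs_norm_sub_norm_le (a + δ) a
    simpa using this
  have h3 : (‖a + δ‖ - ‖a‖) ^ 2 ≤ ‖δ‖ ^ 2 := by
    rw [← sq_abs]
    exact pow_le_pow_left₀ (abs_nonneg _) h2 2
  rw [abs_le]
  constructor <;> nlinarith [sq_nonneg (‖a + δ‖ - ‖a‖)]

theorem main : StD0 := by
  intro W z α β h
  rw [hasFDerivAt_iff_isLittleO]
  have hN : Tendsto (fun z' : E => ((‖z'.1‖, ‖z'.2‖) : ℝ × ℝ)) (𝓝 z)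
      (𝓝[{q | 0 ≤ q.1 ∧ 0 ≤ q.2}] (‖z.1‖, ‖z.2‖)) := by
    apply tendsto_nhdsWithin_of_tendsto_nhds_of_eventually_within
    · have : Continuous (fun z' : E => ((‖z'.1‖, ‖z'.2‖) : ℝ × ℝ)) := by fun_prop
      exact this.tendsto z
    · exact Eventually.of_forall fun z' => ⟨norm_nonneg _, norm_nonneg _⟩
  have h1 := (hasFDerivWithinAt_iff_isLittleO.1 h).comp_tendsto hN
  have hO : (fun z' : E => ((‖z'.1‖, ‖z'.2‖) : ℝ × ℝ) - (‖z.1‖, ‖z.2‖)) =O[𝓝 z]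
      fun z' => z' - z := by
    apply Asymptotics.IsBigO.of_bound 1
    apply Eventually.of_forall
    intro z'
    rw [one_mul, Prod.norm_def, Prod.norm_def]
    apply max_le_max
    · simpa using abs_norm_sub_norm_le z'.1 z.1
    · simpa using abs_norm_sub_norm_le z'.2 z.2
  have h2 : (fun z' : E => W (‖z'.1‖, ‖z'.2‖) - W (‖z.1‖, ‖z.2‖) -
      lin2 (α * ‖z.1‖) (β * ‖z.2‖) (((‖z'.1‖, ‖z'.2‖) : ℝ × ℝ) - (‖z.1‖, ‖z.2‖))) =o[𝓝 z]
      fun z' => z' - z := h1.trans_isBigO hO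
  have h3 : (fun z' : E => lin2 (α * ‖z.1‖) (β * ‖z.2‖)
      (((‖z'.1‖, ‖z'.2‖) : ℝ × ℝ) - (‖z.1‖, ‖z.2‖)) - covR α β z (z' - z)) =o[𝓝 z]
      fun z' => z' - z := by
    have h4 : (fun z' : E => lin2 (α * ‖z.1‖) (β * ‖z.2‖)
        (((‖z'.1‖, ‖z'.2‖) : ℝ × ℝ) - (‖z.1‖, ‖z.2‖)) - covR α β z (z' - z)) =O[𝓝 z]
        fun z' => ‖z' - z‖ ^ 2 := by
      apply Asymptotics.IsBigO.of_bound (|α| + |β|)
      apply Eventually.of_forall
      intro z'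
      have e1 := norm_expand z.1 (z'.1 - z.1)
      have e2 := norm_expand z.2 (z'.2 - z.2)
      rw [add_sub_cancel] at e1 e2
      have n1 : ‖z'.1 - z.1‖ ≤ ‖z' - z‖ := norm_fst_le (z' - z)
      have n2 : ‖z'.2 - z.2‖ ≤ ‖z' - z‖ := norm_snd_le (z' - z)
      have m1 : ‖z'.1 - z.1‖ ^ 2 ≤ ‖z' - z‖ ^ 2 := pow_le_pow_left₀ (norm_nonneg _) n1 2
      have m2 : ‖z'.2 - z.2‖ ^ 2 ≤ ‖z' - z‖ ^ 2 := pow_le_pow_left₀ (norm_nonneg _) n2 2
      have e3 : lin2 (α * ‖z.1‖) (β * ‖z.2‖)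
          (((‖z'.1‖, ‖z'.2‖) : ℝ × ℝ) - (‖z.1‖, ‖z.2‖)) - covR α β z (z' - z) =
          α * (‖z.1‖ * (‖z'.1‖ - ‖z.1‖) - (conj z.1 * (z'.1 - z.1)).re) +
          β * (‖z.2‖ * (‖z'.2‖ - ‖z.2‖) - (conj z.2 * (z'.2 - z.2)).re) := by
        rw [lin2_apply, covR_apply]
        simp only [Prod.fst_sub, Prod.snd_sub]
        ring
      rw [e3, Real.norm_eq_abs, Real.norm_of_nonneg (by positivity : (0:ℝ) ≤ ‖z' - z‖ ^ 2)]
      calc _ ≤ |α * (‖z.1‖ * (‖z'.1‖ - ‖z.1‖) - (conj z.1 * (z'.1 - z.1)).re)| +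
            |β * (‖z.2‖ * (‖z'.2‖ - ‖z.2‖) - (conj z.2 * (z'.2 - z.2)).re)| := abs_add_le _ _
        _ ≤ |α| * ‖z' - z‖ ^ 2 + |β| * ‖z' - z‖ ^ 2 := by
            rw [abs_mul, abs_mul]
            exact add_le_add (mul_le_mul_of_nonneg_left (e1.trans m1) (abs_nonneg _))
              (mul_le_mul_of_nonneg_left (e2.trans m2) (abs_nonneg _))
        _ = (|α| + |β|) * ‖z' - z‖ ^ 2 := by ring
    have h5 : (fun z' : E => ‖z' - z‖ ^ 2) =o[𝓝 z] fun z' => z' - z := by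
      have h6 : Tendsto (fun z' : E => ‖z' - z‖) (𝓝 z) (𝓝 0) := by
        have : Continuous (fun z' : E => ‖z' - z‖) := by fun_prop
        simpa using this.tendsto z
      have h7 : (fun z' : E => ‖z' - z‖ * ‖z' - z‖) =o[𝓝 z] fun z' => (1:ℝ) * ‖z' - z‖ :=
        ((Asymptotics.isLittleO_one_iff ℝ).2 h6).mul_isBigO (Asymptotics.isBigO_refl _ _)
      simp only [one_mul] at h7
      have h8 := h7.norm_right
      refine (Asymptotics.IsLittleO.trans_isBigO (g := fun z' : E => ‖z' - z‖) ?_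
        (Asymptotics.isBigO_norm_left.2 (Asymptotics.isBigO_refl _ _)))
      simpa [sq] using h7
    exact h4.trans_isLittleO h5
  refine (h2.add h3).congr_left fun z' => ?_
  ring

end Helper85.IW.M_D0
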