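import Mathlib

set_option autoImplicit false

namespace Pool.Agent.Helper36.Poly

/-- The hypercube `Q_n`: vertices are the 0-1 words of length `n`, two words being adjacent
if and only if they differ in exactly one coordinate. -/
def hypercube (n : ℕ) : SimpleGraph (Fin n → Bool) where
  Adj x y := ∃! i, x i ≠ y i
  symm := ⟨fun x y h => by simpa [ne_comm] using h⟩
  loopless := ⟨fun x h => by obtain ⟨i, hi, _⟩ := h; exact hi rfl⟩

/-- An edge colouring `χ` of `Q_n` with the `r` colours `Fin r` is `G`-polychromatic if every
subgraph of `Q_n` isomorphic to `G` contains an edge of every colour. -/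
def IsPolychromatic {V : Type} (G : SimpleGraph V) {n r : ℕ}
    (χ : (hypercube n).edgeSet → Fin r) : Prop :=
  ∀ H : (hypercube n).Subgraph, Nonempty (G ≃g H.coe) →
    ∀ c : Fin r, ∃ e : (hypercube n).edgeSet, (e : Sym2 (Fin n → Bool)) ∈ H.edgeSet ∧ χ e = c

/-- `p(G) = r`: the number `r` is the largest number of colours such that every hypercube `Q_n`,
`n ≥ 1`, has a `G`-polychromatic colouring with that many colours. -/
def HasPolychromaticNumber {V : Type} (G : SimpleGraph V) (r : ℕ) : Prop :=
  IsGreatest {s : ℕ | ∀ n : ℕ, 1 ≤ n →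
    ∃ χ : (hypercube n).edgeSet → Fin s, IsPolychromatic G χ} r

end Pool.Agent.Helper36.Poly
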