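import Mathlib

set_option autoImplicit false

namespace Pool.Agent.Helper36.PolyRamsey

open Filter

/-- Ultrafilter limit of a function into a finite type. -/
lemma exists_lim {κ : Type} [Finite κ] (U : Ultrafilter ℕ) (g : ℕ → κ) :
    ∃ c, ∀ᶠ x in (U : Filter ℕ), g x = c := by
  have h : ∀ᶠ x in (U : Filter ℕ), ∃ c, g x = c := Eventually.of_forall fun x => ⟨g x, rfl⟩
  exact Ultrafilter.eventually_exists_iff.1 h

/-- Iterated limits of a colouring of the finite sets. -/
noncomputable def iter {κ : Type} [Finite κ] (g : Finset ℕ → κ) : ℕ → Finset ℕ → κ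
  | 0 => g
  | (j + 1) => fun S => Classical.choose (exists_lim (hyperfilter ℕ) (fun x => iter g j (insert x S)))

lemma iter_spec {κ : Type} [Finite κ] (g : Finset ℕ → κ) (j : ℕ) (S : Finset ℕ) :
    ∀ᶠ x in (hyperfilter ℕ : Filter ℕ), iter g j (insert x S) = iter g (j + 1) S :=
  Classical.choose_spec (exists_lim (hyperfilter ℕ) (fun x => iter g j (insert x S)))

lemma exists_homogeneous_aux {κ : Type} [Finite κ] (g : Finset ℕ → κ) (M : ℕ) :
    ∀ k, k ≤ M → ∃ Y : Finset ℕ, Y.card = k ∧
      ∀ S ⊆ Y, ∀ j, j + S.card ≤ M → iter g j S = iter g (j + S.card) ∅ := by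
  intro k
  induction k with
  | zero =>
    intro _
    refine ⟨∅, rfl, ?_⟩
    intro S hS j _
    rw [Finset.subset_empty.1 hS]
    simp
  | succ k ih =>
    intro hk
    obtain ⟨Y, hY, hYS⟩ := ih (by omega)
    have h1 : ∀ᶠ x in (hyperfilter ℕ : Filter ℕ), ∀ S ∈ Y.powerset, ∀ j ∈ Finset.range (M + 1),
        iter g j (insert x S) = iter g (j + 1) S := by
      rw [eventually_all_finset]
      intro S _
      rw [eventually_all_finset]
      intro j _
      exact iter_spec g j S
    have h2 : ∀ᶠ x in (hyperfilter ℕ : Filter ℕ), x ∉ Y := by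
      apply hyperfilter_le_cofinite
      exact Y.finite_toSet.eventually_cofinite_notMem
    obtain ⟨x, hx1, hx2⟩ := (h1.and h2).exists
    refine ⟨insert x Y, by rw [Finset.card_insert_of_notMem hx2, hY], ?_⟩
    intro S hS j hj
    by_cases hxS : x ∈ S
    · have hS' : S.erase x ⊆ Y := by
        intro y hy
        rw [Finset.mem_erase] at hy
        have := hS hy.2
        rw [Finset.mem_insert] at this
        tauto
      have hcard : (S.erase x).card + 1 = S.card := Finset.card_erase_add_one hxS
      have e1 := hx1 (S.erase x) (Finset.mem_powerset.2 hS') j (Finset.mem_range.2 (by omega))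
      rw [Finset.insert_erase hxS] at e1
      rw [e1, hYS (S.erase x) hS' (j + 1) (by omega)]
      congr 1
      omega
    · apply hYS S _ j hj
      intro y hy
      have := hS hy
      rw [Finset.mem_insert] at this
      rcases this with rfl | h
      · exact absurd hy hxS
      · exact h

/-- A finite form of Ramsey theorem for all uniformities at once. -/
theorem exists_homogeneous {κ : Type} [Finite κ] (f : ℕ → Finset ℕ → κ) (M : ℕ) :
    ∃ (H : ℕ → κ) (Y : Finset ℕ) (n : ℕ), Y.card = M ∧ (∀ y ∈ Y, y < n) ∧ 1 ≤ n ∧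
      ∀ S ⊆ Y, f n S = H S.card := by
  have hlim : ∀ S : Finset ℕ, ∃ c, ∀ᶠ n in (hyperfilter ℕ : Filter ℕ), f n S = c := fun S =>
    exists_lim (hyperfilter ℕ) (fun n => f n S)
  choose g hg using hlim
  obtain ⟨Y, hY, hYS⟩ := exists_homogeneous_aux g M M le_rfl
  have h1 : ∀ᶠ n in (hyperfilter ℕ : Filter ℕ), ∀ S ∈ Y.powerset, f n S = g S := by
    rw [eventually_all_finset]
    intro S _
    exact hg S
  have h2 : ∀ᶠ n in (hyperfilter ℕ : Filter ℕ), (Y.sup id) + 1 ≤ n := by
    apply Nat.hyperfilter_le_atTop
    exact eventually_ge_atTop _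
  obtain ⟨n, hn1, hn2⟩ := (h1.and h2).exists
  refine ⟨fun s => iter g s ∅, Y, n, hY, ?_, by omega, ?_⟩
  · intro y hy
    have : y ≤ Y.sup id := Finset.le_sup (f := id) hy
    omega
  · intro S hS
    rw [hn1 S (Finset.mem_powerset.2 hS)]
    have hc : S.card ≤ M := hY ▸ Finset.card_le_card hS
    have := hYS S hS 0 (by omega)
    simpa [iter] using this

/-- Greedy index. -/
noncomputable def idx (W : ℕ → ℕ → Prop) : ℕ → ℕ
  | 0 => 0
  | (l + 1) => by
      classical
      exact if W (idx W l) l then idx W l + 1 else idx W l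

lemma idx_succ_of_pos (W : ℕ → ℕ → Prop) (l : ℕ) (h : W (idx W l) l) :
    idx W (l + 1) = idx W l + 1 := by
  simp [idx, h]

lemma idx_succ_of_neg (W : ℕ → ℕ → Prop) (l : ℕ) (h : ¬ W (idx W l) l) :
    idx W (l + 1) = idx W l := by
  simp [idx, h]

lemma idx_mono (W : ℕ → ℕ → Prop) : Monotone (idx W) := by
  apply monotone_nat_of_le_succ
  intro l
  by_cases h : W (idx W l) l
  · rw [idx_succ_of_pos W l h]; omega
  · rw [idx_succ_of_neg W l h]

lemma exists_of_lt_idx (W : ℕ → ℕ → Prop) (L i : ℕ) (h : i < idx W L) :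
    ∃ l, l < L ∧ idx W l = i ∧ W i l := by
  induction L with
  | zero => simp [idx] at h
  | succ L ih =>
    by_cases hW : W (idx W L) L
    · rw [idx_succ_of_pos W L hW] at h
      rcases Nat.lt_succ_iff_lt_or_eq.1 h with h' | h'
      · obtain ⟨l, hl, h1, h2⟩ := ih h'
        exact ⟨l, by omega, h1, h2⟩
      · exact ⟨L, by omega, h'.symm, h' ▸ hW⟩
    · rw [idx_succ_of_neg W L hW] at h
      obtain ⟨l, hl, h1, h2⟩ := ih h
      exact ⟨l, by omega, h1, h2⟩

lemma card_neg (W : ℕ → ℕ → Prop) (L : ℕ) [DecidablePred fun l => ¬ W (idx W l) l] :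
    ((Finset.range L).filter (fun l => ¬ W (idx W l) l)).card + idx W L = L := by
  induction L with
  | zero => simp [idx]
  | succ L ih =>
    rw [Finset.range_add_one, Finset.filter_insert]
    by_cases hW : W (idx W L) L
    · rw [idx_succ_of_pos W L hW]
      simp only [hW, not_true_eq_false, if_false]
      omega
    · rw [idx_succ_of_neg W L hW]
      simp only [hW, not_false_eq_true, if_true]
      rw [Finset.card_insert_of_notMem (by simp)]
      omega

/-- The pigeonhole step: with more than `r` colours some colour can be avoided by all hooks. -/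
theorem exists_avoiding {r s : ℕ} (hs : r < s) (col : ℕ → ℕ → Fin s) :
    ∃ (c : Fin s) (l : Fin r → ℕ), StrictMono l ∧ (∀ i, l i < 2 * r * r + r + 1) ∧
      ∀ i : Fin r, ∀ h < r, col h (l i + min h i) ≠ c := by
  classical
  set L := 2 * r * r + r + 1 with hL
  by_contra hcon
  push Not at hcon
  set W : Fin s → ℕ → ℕ → Prop := fun c i l => ∀ h < r, col h (l + min h i) ≠ c with hW
  have hidx : ∀ c, idx (W c) L < r := by
    intro c
    by_contra hc
    push Not at hc
    have hex : ∀ i : Fin r, ∃ l, l < L ∧ idx (W c) l = i ∧ W c i l := fun i =>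
      exists_of_lt_idx (W c) L i (lt_of_lt_of_le i.2 hc)
    choose l hl1 hl2 hl3 using hex
    obtain ⟨i, h, hh, hcol⟩ := hcon c l (by
      intro i j hij
      by_contra hle
      push Not at hle
      have := idx_mono (W c) hle
      rw [hl2, hl2] at this
      exact absurd hij (not_lt.2 this)) hl1
    exact hl3 i h hh hcol
  -- injection from the blocked pairs to the coloured cells
  set B : Finset (Fin s × ℕ) := (Finset.univ ×ˢ Finset.range L).filter
    (fun p => ¬ W p.1 (idx (W p.1) p.2) p.2) with hB
  have hBcard : s * (L - r + 1) ≤ B.card := by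
    have h1 : B.card = ∑ c : Fin s, ((Finset.range L).filter
        (fun l => ¬ W c (idx (W c) l) l)).card := by
      rw [hB, Finset.card_filter, Finset.sum_product]
      apply Finset.sum_congr rfl
      intro c _
      rw [Finset.card_filter]
    rw [h1]
    have h2 : ∀ c ∈ (Finset.univ : Finset (Fin s)), L - r + 1 ≤ ((Finset.range L).filter
        (fun l => ¬ W c (idx (W c) l) l)).card := by
      intro c _
      have := card_neg (W c) L
      have := hidx c
      omega
    have h3 := Finset.card_nsmul_le_sum _ _ _ h2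
    simpa using h3
  have hex : ∀ p ∈ B, ∃ h < r, col h (p.2 + min h (idx (W p.1) p.2)) = p.1 := by
    intro p hp
    rw [hB, Finset.mem_filter] at hp
    have := hp.2
    simp only [hW] at this
    push Not at this
    exact this
  choose! hh hh1 hh2 using hex
  set T : Finset (ℕ × ℕ) := Finset.range r ×ˢ Finset.range (L + r) with hT
  have hle : B.card ≤ T.card := by
    apply Finset.card_le_card_of_injOn (fun p => (hh p, p.2 + min (hh p) (idx (W p.1) p.2)))
    · intro p hp
      have hp' : p ∈ B := hp
      have h1 := hh1 p hp'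
      rw [hB, Finset.mem_filter, Finset.mem_product, Finset.mem_range] at hp'
      have h2 := hp'.1.2
      simp only [hT, Finset.coe_product, Finset.coe_range, Set.mem_prod, Set.mem_Iio]
      refine ⟨h1, ?_⟩
      have : min (hh p) (idx (W p.1) p.2) ≤ hh p := min_le_left _ _
      omega
    · intro p hp q hq hpq
      simp only [Prod.mk.injEq] at hpq
      obtain ⟨e1, e2⟩ := hpq
      have c1 := hh2 p hp
      have c2 := hh2 q hq
      have c3 : p.1 = q.1 := by
        rw [← c1, ← c2, e2, e1]
      rw [e1, c3] at e2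
      have e3 : p.2 = q.2 := by
        rcases lt_trichotomy p.2 q.2 with h | h | h
        · have := idx_mono (W q.1) h.le
          have h4 : min (hh q) (idx (W q.1) p.2) ≤ min (hh q) (idx (W q.1) q.2) :=
            min_le_min le_rfl this
          omega
        · exact h
        · have := idx_mono (W q.1) h.le
          have h4 : min (hh q) (idx (W q.1) q.2) ≤ min (hh q) (idx (W q.1) p.2) :=
            min_le_min le_rfl this
          omega
      exact Prod.ext c3 e3
  rw [hT, Finset.card_product, Finset.card_range, Finset.card_range] at hle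
  have h5 : s * (L - r + 1) ≤ r * (L + r) := le_trans hBcard hle
  have h6 : (r + 1) * (L - r + 1) ≤ s * (L - r + 1) := Nat.mul_le_mul_right _ hs
  have h7 : (r + 1) * (L - r + 1) ≤ r * (L + r) := le_trans h6 h5
  have h8 : L - r + 1 = 2 * r * r + 2 := by omega
  rw [h8, hL] at h7
  nlinarith [h7]

end Pool.Agent.Helper36.PolyRamsey
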