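import Mathlib
import Pool.Agent.Helper36.PolyRamsey
import Pool.Agent.Helper36.PolyDefs

set_option autoImplicit false

namespace Pool.Agent.Helper36.Poly

/-! ### The graph

`hook r` is the spanning subgraph of `Q_r` in which the coordinate `i` of a word `x` with `x i = 0`
may be flipped if and only if all ones of `x` are to the left of `i`, or all coordinates to the
left of `i` are ones.  All edges in one direction are connected through four-cycles, so every copy
in a hypercube is a standard one and has edges on `r` consecutive levels; on the other hand, in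
the standard embedding all edges of one direction and one level have the same number of ones to
the left, which together with Ramsey theorem gives the upper bound. -/

/-- `Good x i`: flipping the zero coordinate `i` of `x` is an edge of our graph. -/
def Good {r : ℕ} (x : Fin r → Bool) (i : Fin r) : Prop :=
  x i = false ∧ ((∀ j, i < j → x j = false) ∨ (∀ j, j < i → x j = true))

/-- The spanning subgraph of `Q_r`. -/
def hook (r : ℕ) : SimpleGraph (Fin r → Bool) where
  Adj x y := ∃ i, (Good x i ∧ y = Function.update x i true) ∨
    (Good y i ∧ x = Function.update y i true)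
  symm := ⟨fun x y h => by
    obtain ⟨i, h | h⟩ := h
    · exact ⟨i, Or.inr h⟩
    · exact ⟨i, Or.inl h⟩⟩
  loopless := ⟨fun x h => by
    obtain ⟨i, ⟨h1, h2⟩ | ⟨h1, h2⟩⟩ := h
    · have := congrFun h2 i
      rw [h1.1] at this
      simp at this
    · have := congrFun h2 i
      rw [h1.1] at this
      simp at this⟩

lemma hyp_adj_update {n : ℕ} (x : Fin n → Bool) (i : Fin n) (b : Bool) (h : x i ≠ b) :
    (hypercube n).Adj x (Function.update x i b) := by
  refine ⟨i, by simpa using h, ?_⟩
  intro j hj
  by_contra hne
  exact hj (by simp [Function.update_of_ne hne])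

lemma hook_le (r : ℕ) : hook r ≤ hypercube r := by
  intro x y h
  obtain ⟨i, ⟨h1, rfl⟩ | ⟨h1, rfl⟩⟩ := h
  · exact hyp_adj_update x i true (by rw [h1.1]; simp)
  · exact (hyp_adj_update y i true (by rw [h1.1]; simp)).symm

lemma hook_adj {r : ℕ} {x : Fin r → Bool} {i : Fin r} (h : Good x i) :
    (hook r).Adj x (Function.update x i true) := ⟨i, Or.inl ⟨h, rfl⟩⟩

/-! ### Squares in the hypercube -/

/-- `a` and `b` differ exactly at `q`. -/
def Diff {n : ℕ} (a b : Fin n → Bool) (q : Fin n) : Prop := ∀ p, a p ≠ b p ↔ p = q

lemma exists_diff {n : ℕ} {a b : Fin n → Bool} (h : (hypercube n).Adj a b) :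
    ∃ q, Diff a b q := by
  obtain ⟨q, h1, h2⟩ := h
  exact ⟨q, fun p => ⟨fun hp => h2 p hp, fun hp => hp ▸ h1⟩⟩

lemma Diff.unique {n : ℕ} {a b : Fin n → Bool} {q q' : Fin n} (h : Diff a b q)
    (h' : Diff a b q') : q = q' := (h' q).1 ((h q).2 rfl)

lemma Diff.symm {n : ℕ} {a b : Fin n → Bool} {q : Fin n} (h : Diff a b q) : Diff b a q :=
  fun p => ⟨fun hp => (h p).1 hp.symm, fun hp => ((h p).2 hp).symm⟩

lemma Diff.eq_of_ne {n : ℕ} {a b : Fin n → Bool} {q p : Fin n} (h : Diff a b q)
    (hp : p ≠ q) : a p = b p := by
  by_contra hc
  exact hp ((h p).1 hc)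

lemma Diff.at {n : ℕ} {a b : Fin n → Bool} {q : Fin n} (h : Diff a b q) : b q = !(a q) := by
  have := (h q).2 rfl
  cases ha : a q <;> cases hb : b q <;> simp_all

/-- Two points differing from a common point at the same coordinate agree. -/
lemma Diff.eq {n : ℕ} {a b c : Fin n → Bool} {q : Fin n} (h : Diff a b q) (h' : Diff a c q) :
    b = c := by
  funext p
  by_cases hp : p = q
  · rw [hp, h.at, h'.at]
  · rw [← h.eq_of_ne hp, ← h'.eq_of_ne hp]

/-- Opposite edges of a four-cycle of the hypercube are parallel. -/
lemma square {n : ℕ} {a b c d : Fin n → Bool}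
    (hbc : (hypercube n).Adj b c) (hdc : (hypercube n).Adj d c) (had : (hypercube n).Adj a d)
    (hac : a ≠ c) (hbd : b ≠ d) (q : Fin n) (h : Diff a b q) : Diff d c q := by
  obtain ⟨j, hj⟩ := exists_diff hbc
  obtain ⟨k, hk⟩ := exists_diff hdc
  obtain ⟨l, hl⟩ := exists_diff had
  have hqj : q ≠ j := by
    rintro rfl
    exact hac (h.symm.eq hj)
  have hjk : j ≠ k := by
    rintro rfl
    exact hbd (hj.symm.eq hk.symm)
  have hkq : k = q := by
    by_contra hne
    -- coordinate `q` changes from `a` to `b`, not from `b` to `c`, not from `c` to `d`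
    have e1 := h.at
    have e2 := hj.eq_of_ne hqj
    have e3 := hk.eq_of_ne (Ne.symm hne)
    have hlq : l = q := by
      by_contra hlq
      have e4 := hl.eq_of_ne (Ne.symm hlq)
      rw [e4, e3, ← e2] at e1
      cases hb : b q <;> rw [hb] at e1 <;> simp at e1
    rw [hlq] at hl
    exact hbd (h.eq hl)
  rw [← hkq]
  exact hk

/-! ### Induction on the number of ones -/

/-- Number of ones. -/
def wt {n : ℕ} (x : Fin n → Bool) : ℕ := (Finset.univ.filter (fun q => x q = true)).card

lemma wt_update {n : ℕ} (x : Fin n → Bool) (i : Fin n) (h : x i = false) :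
    wt (Function.update x i true) = wt x + 1 := by
  unfold wt
  have : (Finset.univ.filter (fun q => Function.update x i true q = true)) =
      insert i (Finset.univ.filter (fun q => x q = true)) := by
    ext q
    by_cases hq : q = i
    · simp [hq]
    · simp [hq]
  rw [this, Finset.card_insert_of_notMem]
  simp [h]

lemma ones_induction {r : ℕ} (P : (Fin r → Bool) → Prop) (h0 : P (fun _ => false))
    (hs : ∀ x i, x i = false → (∀ j, i < j → x j = false) → P x →
      P (Function.update x i true)) : ∀ x, P x := by
  intro x
  induction hk : wt x using Nat.strong_induction_on generalizing x with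
  | _ k ih =>
    by_cases hne : (Finset.univ.filter (fun q => x q = true)).Nonempty
    · set l := (Finset.univ.filter (fun q => x q = true)).max' hne with hl
      have hlx : x l = true := by
        have := Finset.max'_mem _ hne
        rw [Finset.mem_filter] at this
        exact this.2
      have hmax : ∀ j, l < j → x j = false := by
        intro j hj
        by_contra hc
        have : j ∈ Finset.univ.filter (fun q => x q = true) := by
          simp [Bool.eq_true_of_not_eq_false hc]
        exact absurd (Finset.le_max' _ _ this) (not_le.2 hj)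
      set x' := Function.update x l false with hx'
      have e1 : Function.update x' l true = x := by
        rw [hx', Function.update_idem, ← hlx, Function.update_eq_self]
      have e2 : x' l = false := by simp [hx']
      have e3 := wt_update x' l e2
      rw [e1] at e3
      rw [← e1]
      refine hs x' l e2 ?_ (ih (wt x') (by omega) x' rfl)
      intro j hj
      rw [hx', Function.update_of_ne hj.ne']
      exact hmax j hj
    · have : x = fun _ => false := by
        funext q
        by_contra hc
        exact hne ⟨q, by simp [Bool.eq_true_of_not_eq_false hc]⟩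
      rw [this]
      exact h0

/-! ### Rigidity -/

section Rigid

variable {r n : ℕ} (f : (Fin r → Bool) → (Fin n → Bool)) (hinj : Function.Injective f)
  (hadj : ∀ x y, (hook r).Adj x y → (hypercube n).Adj (f x) (f y))

/-- The word with ones exactly on the coordinates smaller than `i`. -/
def base {r : ℕ} (i : Fin r) : Fin r → Bool := fun j => decide (j < i)

lemma good_base {r : ℕ} (i : Fin r) : Good (base i) i := by
  refine ⟨by simp [base], Or.inl ?_⟩
  intro j hj
  simp [base, hj.le]

include hinj hadj

lemma dirA (i : Fin r) (t : Fin n)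
    (ht : Diff (f (base i)) (f (Function.update (base i) i true)) t) :
    ∀ k, ∀ x : Fin r → Bool, (Finset.univ.filter (fun j => j < i ∧ x j = false)).card = k →
      x i = false → (∀ j, i < j → x j = false) →
      Diff (f x) (f (Function.update x i true)) t := by
  intro k
  induction k with
  | zero =>
    intro x hk hi hr
    have : x = base i := by
      funext j
      rcases lt_trichotomy j i with h | h | h
      · have h1 : x j = true := by
          by_contra hc
          have : j ∈ Finset.univ.filter (fun j => j < i ∧ x j = false) := by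
            simp [h, Bool.eq_false_of_not_eq_true hc]
          rw [Finset.card_eq_zero] at hk
          rw [hk] at this
          simp at this
        rw [h1]; simp [base, h]
      · rw [h, hi]; simp [base]
      · rw [hr j h]; simp [base, h.le]
    rw [this]
    exact ht
  | succ k ih =>
    intro x hk hi hr
    have hne : (Finset.univ.filter (fun j => j < i ∧ x j = false)).Nonempty := by
      rw [← Finset.card_pos]; omega
    set m := (Finset.univ.filter (fun j => j < i ∧ x j = false)).min' hne with hm
    have hmm : m < i ∧ x m = false := by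
      have := Finset.min'_mem _ hne
      rw [Finset.mem_filter] at this
      exact this.2
    have hmin : ∀ j, j < m → x j = true := by
      intro j hj
      by_contra hc
      have : j ∈ Finset.univ.filter (fun j => j < i ∧ x j = false) := by
        simp [hj.trans hmm.1, Bool.eq_false_of_not_eq_true hc]
      exact absurd (Finset.min'_le _ _ this) (not_le.2 hj)
    have hmi : m ≠ i := hmm.1.ne
    set x' := Function.update x m true with hx'
    have hx'i : x' i = false := by rw [hx', Function.update_of_ne hmi.symm, hi]
    have hx'r : ∀ j, i < j → x' j = false := by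
      intro j hj
      rw [hx', Function.update_of_ne (hmm.1.trans hj).ne', hr j hj]
    have hcard : (Finset.univ.filter (fun j => j < i ∧ x' j = false)).card = k := by
      have : (Finset.univ.filter (fun j => j < i ∧ x j = false)) =
          insert m (Finset.univ.filter (fun j => j < i ∧ x' j = false)) := by
        ext j
        by_cases hj : j = m
        · simp [hj, hmm.1, hmm.2]
        · simp [hj, hx']
      rw [this, Finset.card_insert_of_notMem (by simp [hx'])] at hk
      omega
    have hD := ih x' hcard hx'i hx'r
    have hcomm : Function.update x' i true =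
        Function.update (Function.update x i true) m true := by
      rw [hx', Function.update_comm hmi]
    have g1 : Good (Function.update x i true) m := by
      refine ⟨by rw [Function.update_of_ne hmi, hmm.2], Or.inr ?_⟩
      intro j hj
      rw [Function.update_of_ne (hj.trans hmm.1).ne, hmin j hj]
    have g2 : Good x i := ⟨hi, Or.inl hr⟩
    have g3 : Good x m := ⟨hmm.2, Or.inr hmin⟩
    refine square (a := f x') (b := f (Function.update x' i true))
      (c := f (Function.update x i true)) (d := f x) ?_ ?_ ?_ ?_ ?_ t hD
    · rw [hcomm]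
      exact (hadj _ _ (hook_adj g1)).symm
    · exact hadj _ _ (hook_adj g2)
    · exact (hadj _ _ (hook_adj g3)).symm
    · intro h
      have := congrFun (hinj h) i
      rw [hx'i] at this
      simp at this
    · intro h
      have := congrFun (hinj h) i
      rw [hi] at this
      simp at this

lemma dirB (i : Fin r) (t : Fin n)
    (ht : Diff (f (base i)) (f (Function.update (base i) i true)) t) :
    ∀ k, ∀ x : Fin r → Bool, (Finset.univ.filter (fun j => i < j ∧ x j = true)).card = k →
      x i = false → (∀ j, j < i → x j = true) →
      Diff (f x) (f (Function.update x i true)) t := by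
  intro k
  induction k with
  | zero =>
    intro x hk hi hr
    have : x = base i := by
      funext j
      rcases lt_trichotomy j i with h | h | h
      · rw [hr j h]; simp [base, h]
      · rw [h, hi]; simp [base]
      · have h1 : x j = false := by
          by_contra hc
          have : j ∈ Finset.univ.filter (fun j => i < j ∧ x j = true) := by
            simp [h, Bool.eq_true_of_not_eq_false hc]
          rw [Finset.card_eq_zero] at hk
          rw [hk] at this
          simp at this
        rw [h1]; simp [base, h.le]
    rw [this]
    exact ht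
  | succ k ih =>
    intro x hk hi hr
    have hne : (Finset.univ.filter (fun j => i < j ∧ x j = true)).Nonempty := by
      rw [← Finset.card_pos]; omega
    set m := (Finset.univ.filter (fun j => i < j ∧ x j = true)).max' hne with hm
    have hmm : i < m ∧ x m = true := by
      have := Finset.max'_mem _ hne
      rw [Finset.mem_filter] at this
      exact this.2
    have hmax : ∀ j, m < j → x j = false := by
      intro j hj
      by_contra hc
      have : j ∈ Finset.univ.filter (fun j => i < j ∧ x j = true) := by
        simp [hmm.1.trans hj, Bool.eq_true_of_not_eq_false hc]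
      exact absurd (Finset.le_max' _ _ this) (not_le.2 hj)
    have hmi : m ≠ i := hmm.1.ne'
    set x' := Function.update x m false with hx'
    have hx'i : x' i = false := by rw [hx', Function.update_of_ne hmi.symm, hi]
    have hx'm : x' m = false := by simp [hx']
    have hx'r : ∀ j, j < i → x' j = true := by
      intro j hj
      rw [hx', Function.update_of_ne (hj.trans hmm.1).ne, hr j hj]
    have hx'max : ∀ j, m < j → x' j = false := by
      intro j hj
      rw [hx', Function.update_of_ne hj.ne', hmax j hj]
    have hxx' : x = Function.update x' m true := by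
      rw [hx', Function.update_idem, ← hmm.2, Function.update_eq_self]
    have hcard : (Finset.univ.filter (fun j => i < j ∧ x' j = true)).card = k := by
      have : (Finset.univ.filter (fun j => i < j ∧ x j = true)) =
          insert m (Finset.univ.filter (fun j => i < j ∧ x' j = true)) := by
        ext j
        by_cases hj : j = m
        · simp [hj, hmm.1, hmm.2]
        · simp [hj, hx']
      rw [this, Finset.card_insert_of_notMem (by simp [hx'])] at hk
      omega
    have hD := ih x' hcard hx'i hx'r
    have hcomm : Function.update x i true =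
        Function.update (Function.update x' i true) m true := by
      conv_lhs => rw [hxx']
      rw [Function.update_comm hmi]
    have g1 : Good (Function.update x' i true) m := by
      refine ⟨by rw [Function.update_of_ne hmi, hx'm], Or.inl ?_⟩
      intro j hj
      rw [Function.update_of_ne (hmm.1.trans hj).ne', hx'max j hj]
    have g2 : Good x i := ⟨hi, Or.inr hr⟩
    have g3 : Good x' m := ⟨hx'm, Or.inl hx'max⟩
    refine square (a := f x') (b := f (Function.update x' i true))
      (c := f (Function.update x i true)) (d := f x) ?_ ?_ ?_ ?_ ?_ t hD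
    · rw [hcomm]
      exact hadj _ _ (hook_adj g1)
    · exact hadj _ _ (hook_adj g2)
    · have := hadj _ _ (hook_adj g3)
      rw [← hxx'] at this
      exact this
    · intro h
      have := congrFun (hinj h) i
      rw [hx'i] at this
      simp at this
    · intro h
      have := congrFun (hinj h) i
      rw [hi] at this
      simp at this

/-- Every copy of the graph in a hypercube is a standard one. -/
lemma rigid : ∃ τ : Fin r → Fin n, Function.Injective τ ∧
    (∀ x i, f x (τ i) = xor (f (fun _ => false) (τ i)) (x i)) ∧
    (∀ x q, (∀ i, τ i ≠ q) → f x q = f (fun _ => false) q) := by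
  have hex : ∀ i : Fin r, ∃ t, Diff (f (base i)) (f (Function.update (base i) i true)) t :=
    fun i => exists_diff (hadj _ _ (hook_adj (good_base i)))
  choose τ hτ using hex
  have hA : ∀ x i, x i = false → (∀ j, i < j → x j = false) →
      Diff (f x) (f (Function.update x i true)) (τ i) := fun x i h1 h2 =>
    dirA f hinj hadj i (τ i) (hτ i) _ x rfl h1 h2
  have hτinj : Function.Injective τ := by
    intro i j hij
    by_contra hne
    have h1 := hA (fun _ => false) i rfl (fun _ _ => rfl)
    have h2 := hA (fun _ => false) j rfl (fun _ _ => rfl)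
    rw [← hij] at h2
    have h3 := congrFun (hinj (h1.eq h2)) i
    rw [Function.update_of_ne hne] at h3
    simp at h3
  have hmain : ∀ x, (∀ i, f x (τ i) = xor (f (fun _ => false) (τ i)) (x i)) ∧
      (∀ q, (∀ i, τ i ≠ q) → f x q = f (fun _ => false) q) := by
    apply ones_induction
    · exact ⟨fun i => by simp, fun q _ => rfl⟩
    · intro x i hi hr ⟨ih1, ih2⟩
      have hD := hA x i hi hr
      refine ⟨?_, ?_⟩
      · intro j
        by_cases hj : j = i
        · rw [hj, hD.at, ih1 i, hi]
          simp
        · rw [← hD.eq_of_ne (fun h => hj (hτinj h)), ih1 j, Function.update_of_ne hj]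
      · intro q hq
        rw [← hD.eq_of_ne (hq i).symm]
        exact ih2 q hq
  exact ⟨τ, hτinj, fun x => (hmain x).1, fun x => (hmain x).2⟩

end Rigid

/-! ### The lower bound -/

lemma wt_of_diff {n : ℕ} {a b : Fin n → Bool} {q : Fin n} (h : Diff a b q) :
    wt b = wt a + 1 ∨ wt a = wt b + 1 := by
  cases ha : a q
  · left
    have hb : b = Function.update a q true := by
      funext p
      by_cases hp : p = q
      · rw [hp, h.at, ha]; simp
      · rw [← h.eq_of_ne hp, Function.update_of_ne hp]
    rw [hb, wt_update a q ha]
  · right
    have hb : a = Function.update b q true := by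
      funext p
      by_cases hp : p = q
      · rw [hp, ha]; simp
      · rw [h.eq_of_ne hp, Function.update_of_ne hp]
    rw [hb, wt_update b q (by rw [h.at, ha]; simp)]

/-- The level of an edge: the number of ones of its lower end. -/
def level {n : ℕ} : Sym2 (Fin n → Bool) → ℕ :=
  Sym2.lift ⟨fun x y => (wt x + wt y) / 2, fun x y => by simp [add_comm]⟩

lemma mem_iff_zero_mem {r : ℕ} (A : Set (Fin r → Bool))
    (hA : ∀ x y, (hook r).Adj x y → (x ∈ A ↔ y ∈ A)) :
    ∀ x, x ∈ A ↔ (fun _ => false) ∈ A := by
  apply ones_induction
  · exact Iff.rfl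
  · intro x i hi hr ih
    rw [← hA _ _ (hook_adj (⟨hi, Or.inl hr⟩ : Good x i))]
    exact ih

/-- In every copy of the graph there are edges on `r` consecutive levels. -/
lemma exists_levels {r n : ℕ} (f : (Fin r → Bool) → (Fin n → Bool))
    (hinj : Function.Injective f)
    (hadj : ∀ x y, (hook r).Adj x y → (hypercube n).Adj (f x) (f y)) :
    ∃ C : ℕ, ∀ h < r, ∃ x y, (hook r).Adj x y ∧ wt (f x) = C + h ∧ wt (f y) = C + h + 1 := by
  obtain ⟨τ, hτ, h1, h2⟩ := rigid f hinj hadj
  set z : Fin r → Bool := fun i => f (fun _ => false) (τ i) with hz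
  set C := (Finset.univ.filter (fun q : Fin n => (∀ i, τ i ≠ q) ∧
    f (fun _ => false) q = true)).card with hC
  have hwt : ∀ x, wt (f x) = C + (Finset.univ.filter (fun i => xor (z i) (x i) = true)).card := by
    intro x
    have e1 : (Finset.univ.filter (fun q : Fin n => f x q = true)) =
        (Finset.univ.filter (fun q : Fin n => (∀ i, τ i ≠ q) ∧ f (fun _ => false) q = true)) ∪
        (Finset.univ.filter (fun i => xor (z i) (x i) = true)).image τ := by
      ext q
      simp only [Finset.mem_filter, Finset.mem_univ, true_and, Finset.mem_union,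
        Finset.mem_image]
      by_cases hq : ∃ i, τ i = q
      · obtain ⟨i, rfl⟩ := hq
        rw [h1 x i]
        constructor
        · intro h
          exact Or.inr ⟨i, h, rfl⟩
        · rintro (⟨h, _⟩ | ⟨j, h, hj⟩)
          · exact absurd rfl (h i)
          · have : j = i := hτ hj
            rw [← this]
            exact h
      · push Not at hq
        rw [h2 x q hq]
        constructor
        · intro h
          exact Or.inl ⟨hq, h⟩
        · rintro (⟨_, h⟩ | ⟨j, _, hj⟩)
          · exact h
          · exact absurd hj (hq j)
    unfold wt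
    rw [e1, Finset.card_union_of_disjoint, Finset.card_image_of_injective _ hτ]
    rw [Finset.disjoint_left]
    intro q hq hq'
    simp only [Finset.mem_filter, Finset.mem_univ, true_and] at hq
    rw [Finset.mem_image] at hq'
    obtain ⟨i, _, hi⟩ := hq'
    exact hq.1 i hi
  refine ⟨C, ?_⟩
  intro h hh
  by_contra hcon
  push Not at hcon
  set A : Set (Fin r → Bool) := {x | wt (f x) ≤ C + h} with hA
  have hcl : ∀ x y, (hook r).Adj x y → x ∈ A → y ∈ A := by
    intro x y hxy hx
    obtain ⟨q, hq⟩ := exists_diff (hadj x y hxy)
    have hx' : wt (f x) ≤ C + h := hx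
    change wt (f y) ≤ C + h
    by_contra hc
    push Not at hc
    rcases wt_of_diff hq with e | e
    · exact hcon x y hxy (by omega) (by omega)
    · omega
  have hcl' : ∀ x y, (hook r).Adj x y → (x ∈ A ↔ y ∈ A) := fun x y hxy =>
    ⟨hcl x y hxy, hcl y x hxy.symm⟩
  have hzA : z ∈ A := by
    change wt (f z) ≤ C + h
    rw [hwt z]
    simp
  have hzA' : (fun i => !(z i)) ∈ A := by
    rw [mem_iff_zero_mem A hcl', ← mem_iff_zero_mem A hcl' z]
    exact hzA
  have h3 : wt (f (fun i => !(z i))) ≤ C + h := hzA'
  rw [hwt] at h3
  have h4 : (Finset.univ.filter (fun i => xor (z i) (!(z i)) = true)).card = r := by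
    simp
  rw [h4] at h3
  omega

theorem lower {r : ℕ} (hr : 1 ≤ r) (n : ℕ) :
    ∃ χ : (hypercube n).edgeSet → Fin r, IsPolychromatic (hook r) χ := by
  refine ⟨fun e => ⟨level e.1 % r, Nat.mod_lt _ hr⟩, ?_⟩
  intro H ⟨φ⟩ c
  set f : (Fin r → Bool) → (Fin n → Bool) := fun x => (φ x : Fin n → Bool) with hf
  have hinj : Function.Injective f := fun x y hxy => φ.injective (Subtype.ext hxy)
  have hadjH : ∀ x y, (hook r).Adj x y → H.Adj (f x) (f y) := by
    intro x y hxy
    have := φ.map_rel_iff.2 hxy
    simpa using this
  obtain ⟨C, hC⟩ := exists_levels f hinj (fun x y hxy => (hadjH x y hxy).adj_sub)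
  have hex : ∃ h < r, (C + h) % r = c := by
    have hc := c.2
    have hmod := Nat.mod_lt C hr
    have hdiv := Nat.div_add_mod C r
    by_cases hle : C % r ≤ c
    · refine ⟨c - C % r, by omega, ?_⟩
      have : C + (c - C % r) = c + r * (C / r) := by omega
      rw [this, Nat.add_mul_mod_self_left, Nat.mod_eq_of_lt hc]
    · refine ⟨c + r - C % r, by omega, ?_⟩
      have : C + (c + r - C % r) = c + r + r * (C / r) := by omega
      rw [this, Nat.add_mul_mod_self_left, Nat.add_mod_right, Nat.mod_eq_of_lt hc]
  obtain ⟨h, hh, hmod⟩ := hex
  obtain ⟨x, y, hxy, hx, hy⟩ := hC h hh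
  refine ⟨⟨s(f x, f y), (hadjH x y hxy).adj_sub⟩, hadjH x y hxy, ?_⟩
  apply Fin.ext
  simp only [level, Sym2.lift_mk, hx, hy]
  have : (C + h + (C + h + 1)) / 2 = C + h := by omega
  rw [this, hmod]

/-! ### The upper bound -/

/-- Indicator word of a set of coordinates. -/
def ind (n : ℕ) (S : Finset ℕ) : Fin n → Bool := fun q => decide ((q : ℕ) ∈ S)

/-- The element of `S` with exactly `t` smaller elements in `S`. -/
noncomputable def rk (S : Finset ℕ) (t : ℕ) : ℕ := by
  classical
  exact if h : ∃ a ∈ S, (S.filter (fun b => b < a)).card = t then Classical.choose h else 0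

lemma rk_eq (S : Finset ℕ) (a : ℕ) (ha : a ∈ S) : rk S (S.filter (fun b => b < a)).card = a := by
  have h : ∃ a' ∈ S, (S.filter (fun b => b < a')).card = (S.filter (fun b => b < a)).card :=
    ⟨a, ha, rfl⟩
  have hr : rk S (S.filter (fun b => b < a)).card = Classical.choose h := by
    unfold rk
    rw [dif_pos h]
  rw [hr]
  obtain ⟨h1, h2⟩ := Classical.choose_spec h
  set a' := Classical.choose h
  rcases lt_trichotomy a' a with hlt | heq | hlt
  · exfalso
    have : S.filter (fun b => b < a') ⊂ S.filter (fun b => b < a) := by
      rw [Finset.ssubset_iff_of_subset]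
      · exact ⟨a', by simp [h1, hlt], by simp⟩
      · intro b hb
        rw [Finset.mem_filter] at hb ⊢
        exact ⟨hb.1, hb.2.trans hlt⟩
    exact absurd h2 (Finset.card_lt_card this).ne
  · exact heq
  · exfalso
    have : S.filter (fun b => b < a) ⊂ S.filter (fun b => b < a') := by
      rw [Finset.ssubset_iff_of_subset]
      · exact ⟨a, by simp [ha, hlt], by simp⟩
      · intro b hb
        rw [Finset.mem_filter] at hb ⊢
        exact ⟨hb.1, hb.2.trans hlt⟩
    exact absurd h2 (Finset.card_lt_card this).ne'

section Upper

variable {r L : ℕ} (l : Fin r → ℕ) (e : Fin (L + r) → ℕ)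

/-- The set of coordinates equal to one in the embedded vertex. -/
def A (x : Fin r → Bool) : Finset ℕ :=
  (Finset.univ.filter (fun j : Fin (L + r) => ∀ i : Fin r, l i + i = j → x i = true)).image e

variable (hl : StrictMono l) (hlL : ∀ i, l i < L) (he : StrictMono e)

/-- Position of the `i`-th star. -/
def P (hlL : ∀ i, l i < L) (i : Fin r) : Fin (L + r) :=
  ⟨l i + i, by have := hlL i; have := i.2; omega⟩

include hl in
lemma P_strictMono : StrictMono (P l hlL) := by
  intro i j hij
  have h1 := hl hij
  have h2 : (i : ℕ) < j := hij
  change l i + i < l j + j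
  omega

include hl he in
lemma mem_A_star (x : Fin r → Bool) (i : Fin r) : e (P l hlL i) ∈ A l e x ↔ x i = true := by
  unfold A
  rw [Finset.mem_image]
  constructor
  · rintro ⟨j, hj, hji⟩
    rw [Finset.mem_filter] at hj
    have : j = P l hlL i := he.injective hji
    rw [this] at hj
    exact hj.2 i rfl
  · intro hx
    refine ⟨P l hlL i, ?_, rfl⟩
    rw [Finset.mem_filter]
    refine ⟨Finset.mem_univ _, ?_⟩
    intro i' hi'
    have : P l hlL i' = P l hlL i := Fin.ext hi'
    rw [(P_strictMono l hl hlL).injective this]
    exact hx

include hl he in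
lemma A_update (x : Fin r → Bool) (i : Fin r) :
    A l e (Function.update x i true) = insert (e (P l hlL i)) (A l e x) := by
  ext a
  rw [Finset.mem_insert]
  constructor
  · intro ha
    unfold A at ha
    rw [Finset.mem_image] at ha
    obtain ⟨j, hj, rfl⟩ := ha
    rw [Finset.mem_filter] at hj
    by_cases hji : j = P l hlL i
    · left; rw [hji]
    · right
      unfold A
      apply Finset.mem_image_of_mem
      rw [Finset.mem_filter]
      refine ⟨Finset.mem_univ _, ?_⟩
      intro i' hi'
      have h1 := hj.2 i' hi'
      rw [Function.update_of_ne] at h1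
      · exact h1
      · rintro rfl
        exact hji (Fin.ext hi'.symm)
  · rintro (rfl | ha)
    · rw [mem_A_star l e hl hlL he]
      simp
    · unfold A at ha ⊢
      rw [Finset.mem_image] at ha ⊢
      obtain ⟨j, hj, rfl⟩ := ha
      refine ⟨j, ?_, rfl⟩
      rw [Finset.mem_filter] at hj ⊢
      refine ⟨Finset.mem_univ _, ?_⟩
      intro i' hi'
      by_cases h : i' = i
      · rw [h]; simp
      · rw [Function.update_of_ne h]
        exact hj.2 i' hi'

include hl hlL he in
lemma card_A (x : Fin r → Bool) : (A l e x).card = L + wt x := by
  unfold A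
  rw [Finset.card_image_of_injective _ he.injective]
  have e1 : (Finset.univ.filter (fun j : Fin (L + r) => ∀ i : Fin r, l i + i = j → x i = true)) =
      Finset.univ \ (Finset.univ.filter (fun i => x i = false)).image (P l hlL) := by
    ext j
    simp only [Finset.mem_filter, Finset.mem_univ, true_and, Finset.mem_sdiff, Finset.mem_image,
      not_exists, not_and]
    constructor
    · intro h i hi hPi
      rw [h i (by rw [← hPi]; rfl)] at hi
      exact absurd hi (by simp)
    · intro h i hi
      by_contra hc
      exact h i (Bool.eq_false_of_not_eq_true hc) (Fin.ext hi)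
  rw [e1, Finset.card_sdiff_of_subset (Finset.subset_univ _),
    Finset.card_image_of_injective _ (P_strictMono l hl hlL).injective, Finset.card_univ,
    Fintype.card_fin]
  have e2 : (Finset.univ.filter (fun i => x i = false)).card + wt x = r := by
    unfold wt
    have := Finset.card_filter_add_card_filter_not (s := (Finset.univ : Finset (Fin r)))
      (fun i => x i = false)
    simpa using this
  omega

include hl he in
lemma rank_A (x : Fin r → Bool) (i : Fin r) (hx : Good x i) :
    ((A l e (Function.update x i true)).filter (fun b => b < e (P l hlL i))).card =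
      l i + min (wt x) i := by
  have e1 : ((A l e (Function.update x i true)).filter (fun b => b < e (P l hlL i))) =
      ((Finset.univ.filter (fun j : Fin (L + r) => j < P l hlL i)) \
        (Finset.univ.filter (fun i' => i' < i ∧ x i' = false)).image (P l hlL)).image e := by
    ext a
    simp only [A, Finset.mem_filter, Finset.mem_univ, true_and, Finset.mem_sdiff,
      Finset.mem_image, not_exists, not_and]
    constructor
    · rintro ⟨⟨j, hj, rfl⟩, hlt⟩
      have hjP : j < P l hlL i := he.lt_iff_lt.1 hlt
      refine ⟨j, ⟨hjP, ?_⟩, rfl⟩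
      rintro i' ⟨hi', hxi'⟩ hP
      have := hj i' (by rw [← hP]; rfl)
      rw [Function.update_of_ne hi'.ne] at this
      rw [this] at hxi'
      exact absurd hxi' (by simp)
    · rintro ⟨j, ⟨hjP, hj⟩, rfl⟩
      refine ⟨⟨j, ?_, rfl⟩, he hjP⟩
      intro i' hi'
      have hPj : P l hlL i' = j := Fin.ext hi'
      have hi'i : i' < i := by
        rw [← hPj] at hjP
        exact (P_strictMono l hl hlL).lt_iff_lt.1 hjP
      rw [Function.update_of_ne hi'i.ne]
      by_contra hc
      exact hj i' ⟨hi'i, Bool.eq_false_of_not_eq_true hc⟩ hPj
  rw [e1, Finset.card_image_of_injective _ he.injective, Finset.card_sdiff_of_subset,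
    Finset.card_image_of_injective _ (P_strictMono l hl hlL).injective]
  · have e2 : (Finset.univ.filter (fun j : Fin (L + r) => j < P l hlL i)).card = l i + i := by
      have : (Finset.univ.filter (fun j : Fin (L + r) => j < P l hlL i)) =
          Finset.Iio (P l hlL i) := by
        ext j; simp
      rw [this, Fin.card_Iio]
      rfl
    have e3 : (Finset.univ.filter (fun i' => i' < i ∧ x i' = false)).card +
        (Finset.univ.filter (fun i' => i' < i ∧ x i' = true)).card = i := by
      have h1 : (Finset.univ.filter (fun i' : Fin r => i' < i)) =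
          (Finset.univ.filter (fun i' => i' < i ∧ x i' = false)) ∪
          (Finset.univ.filter (fun i' => i' < i ∧ x i' = true)) := by
        ext i'
        simp only [Finset.mem_filter, Finset.mem_univ, true_and, Finset.mem_union]
        cases x i' <;> simp
      have h2 : (Finset.univ.filter (fun i' : Fin r => i' < i)).card = i := by
        have : (Finset.univ.filter (fun i' : Fin r => i' < i)) = Finset.Iio i := by
          ext j; simp
        rw [this, Fin.card_Iio]
      rw [← h2, h1, Finset.card_union_of_disjoint]
      rw [Finset.disjoint_left]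
      intro i' h3 h4
      rw [Finset.mem_filter] at h3 h4
      rw [h3.2.2] at h4
      exact absurd h4.2.2 (by simp)
    have e4 : (Finset.univ.filter (fun i' => i' < i ∧ x i' = true)).card = min (wt x) i := by
      rcases hx with ⟨hxi, hx | hx⟩
      · have h1 : (Finset.univ.filter (fun i' => i' < i ∧ x i' = true)) =
            (Finset.univ.filter (fun i' => x i' = true)) := by
          ext i'
          simp only [Finset.mem_filter, Finset.mem_univ, true_and, and_iff_right_iff_imp]
          intro h
          by_contra hc
          push Not at hc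
          rcases hc.lt_or_eq with h' | h'
          · rw [hx i' h'] at h
            exact absurd h (by simp)
          · rw [← h', hxi] at h
            exact absurd h (by simp)
        have h2 : (Finset.univ.filter (fun i' => i' < i ∧ x i' = true)).card = wt x := by
          rw [h1]; rfl
        have h3 : wt x ≤ i := by omega
        omega
      · have h1 : (Finset.univ.filter (fun i' => i' < i ∧ x i' = false)) = ∅ := by
          ext i'
          simp only [Finset.mem_filter, Finset.mem_univ, true_and, Finset.notMem_empty,
            iff_false, not_and]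
          intro h
          rw [hx i' h]
          simp
        have h2 : (Finset.univ.filter (fun i' => i' < i ∧ x i' = false)).card = 0 := by
          rw [h1]; rfl
        have h3 : (Finset.univ.filter (fun i' => i' < i ∧ x i' = true)).card ≤ wt x := by
          apply Finset.card_le_card
          intro i'
          simp only [Finset.mem_filter, Finset.mem_univ, true_and]
          exact fun h => h.2
        omega
    omega
  · intro j hj
    rw [Finset.mem_image] at hj
    obtain ⟨i', hi', rfl⟩ := hj
    rw [Finset.mem_filter] at hi' ⊢
    exact ⟨Finset.mem_univ _, P_strictMono l hl hlL hi'.2.1⟩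

end Upper

theorem upper {r s : ℕ} (hs : r < s)
    (h : ∀ n : ℕ, 1 ≤ n → ∃ χ : (hypercube n).edgeSet → Fin s, IsPolychromatic (hook r) χ) :
    False := by
  classical
  have hs0 : 0 < s := by omega
  set L := 2 * r * r + r + 1 with hL
  -- total colourings
  have h' : ∀ n : ℕ, ∃ χ : Sym2 (Fin n → Bool) → Fin s, 1 ≤ n →
      ∀ H : (hypercube n).Subgraph, Nonempty (hook r ≃g H.coe) →
        ∀ c : Fin s, ∃ e ∈ H.edgeSet, χ e = c := by
    intro n
    by_cases hn : 1 ≤ n
    · obtain ⟨χ, hχ⟩ := h n hn
      refine ⟨fun e => if he : e ∈ (hypercube n).edgeSet then χ ⟨e, he⟩ else ⟨0, hs0⟩, ?_⟩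
      intro _ H hH c
      obtain ⟨e, he, hc⟩ := hχ H hH c
      refine ⟨e.1, he, ?_⟩
      simp only [e.2, dite_true]
      exact hc
    · exact ⟨fun _ => ⟨0, hs0⟩, fun hn' => absurd hn' hn⟩
  choose χ hχ using h'
  obtain ⟨H, Y, n, hY, hYn, hn, hhom⟩ := Pool.Agent.Helper36.PolyRamsey.exists_homogeneous
    (κ := Fin (L + r) → Fin s)
    (fun n S t => χ n s(ind n (S.erase (rk S t)), ind n S)) (L + r)
  obtain ⟨c, l, hl, hlL, hcol⟩ := Pool.Agent.Helper36.PolyRamsey.exists_avoiding hs
    (fun h q => if hq : q < L + r then H (L + h + 1) ⟨q, hq⟩ else ⟨0, hs0⟩)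
  set e : Fin (L + r) → ℕ := fun j => Y.orderEmbOfFin hY j with he_def
  have he : StrictMono e := (Y.orderEmbOfFin hY).strictMono
  have heY : ∀ j, e j ∈ Y := fun j => Finset.orderEmbOfFin_mem Y hY j
  have hAY : ∀ x, A l e x ⊆ Y := by
    intro x a ha
    unfold A at ha
    rw [Finset.mem_image] at ha
    obtain ⟨j, _, rfl⟩ := ha
    exact heY j
  set Φ : (Fin r → Bool) → (Fin n → Bool) := fun x => ind n (A l e x) with hΦ
  have hΦstar : ∀ x i, Φ x ⟨e (P l hlL i), hYn _ (heY _)⟩ = x i := by
    intro x i
    have := mem_A_star l e hl hlL he x i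
    rw [Bool.eq_iff_iff]
    simp only [hΦ, ind, decide_eq_true_eq]
    exact this
  have hΦinj : Function.Injective Φ := by
    intro x y hxy
    funext i
    rw [← hΦstar x i, ← hΦstar y i, hxy]
  have hΦupd : ∀ x i, Good x i → (hypercube n).Adj (Φ x) (Φ (Function.update x i true)) := by
    intro x i hx
    refine ⟨⟨e (P l hlL i), hYn _ (heY _)⟩, ?_, ?_⟩
    · simp only [hΦstar]
      rw [hx.1]
      simp
    · intro q hq
      by_contra hne
      apply hq
      simp only [hΦ, ind, A_update l e hl hlL he, Finset.mem_insert]
      have : (q : ℕ) ≠ e (P l hlL i) := fun h => hne (Fin.ext h)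
      simp [this]
  have hΦadj : ∀ {x y}, (hook r).Adj x y → (hypercube n).Adj (Φ x) (Φ y) := by
    rintro x y ⟨i, ⟨hx, rfl⟩ | ⟨hy, rfl⟩⟩
    · exact hΦupd x i hx
    · exact (hΦupd y i hy).symm
  set cp : SimpleGraph.Copy (hook r) (hypercube n) := ⟨⟨Φ, hΦadj⟩, hΦinj⟩ with hcp
  obtain ⟨ed, hed, hedc⟩ := hχ n hn cp.toSubgraph ⟨cp.isoToSubgraph⟩ c
  -- every edge of the copy avoids the colour `c`
  have hkey : ∀ x i, Good x i → χ n s(Φ x, Φ (Function.update x i true)) ≠ c := by
    intro x i hx
    have hwtlt : wt x < r := by
      unfold wt
      have : (Finset.univ.filter (fun q => x q = true)) ⊂ Finset.univ := by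
        rw [Finset.ssubset_iff_of_subset (Finset.subset_univ _)]
        exact ⟨i, Finset.mem_univ _, by simp [hx.1]⟩
      have := Finset.card_lt_card this
      simpa using this
    have h1 := hcol i (wt x) hwtlt
    have h2 : l i + min (wt x) i < L + r := by
      have h3 := hlL i
      have h4 := i.2
      have h5 : min (wt x) i ≤ i := min_le_right _ _
      omega
    simp only [h2, dite_true] at h1
    set S := A l e (Function.update x i true) with hS
    have h3 := hhom S (hAY _)
    have h4 : S.card = L + wt x + 1 := by
      rw [hS, card_A l e hl hlL he, wt_update x i hx.1]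
      ring
    rw [h4] at h3
    have h5 := congrFun h3 ⟨l i + min (wt x) i, h2⟩
    simp only at h5
    have h6 : rk S (l i + min (wt x) i) = e (P l hlL i) := by
      rw [← rank_A l e hl hlL he x i hx]
      apply rk_eq
      rw [mem_A_star l e hl hlL he]
      simp
    rw [h6] at h5
    have h7 : S.erase (e (P l hlL i)) = A l e x := by
      rw [hS, A_update l e hl hlL he, Finset.erase_insert]
      rw [mem_A_star l e hl hlL he, hx.1]
      simp
    rw [h7] at h5
    rw [← h5] at h1
    exact h1
  rw [SimpleGraph.Subgraph.edgeSet_map] at hed
  obtain ⟨ed', hed', rfl⟩ := hed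
  induction ed' using Sym2.ind with
  | _ x y =>
    have hxy : (hook r).Adj x y := by simpa using hed'
    obtain ⟨i, ⟨hx, rfl⟩ | ⟨hy, rfl⟩⟩ := hxy
    · exact hkey x i hx hedc
    · apply hkey y i hy
      rw [Sym2.eq_swap]
      exact hedc

/-- The graph has polychromatic number `r`. -/
theorem hook_number {r : ℕ} (hr : 1 ≤ r) : HasPolychromaticNumber (hook r) r := by
  refine ⟨fun n _ => lower hr n, ?_⟩
  intro s hs
  by_contra hlt
  push Not at hlt
  exact upper hlt hs

lemma isPolychromatic_iso {V W : Type} {G : SimpleGraph V} {G' : SimpleGraph W} (φ : G ≃g G')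
    {n r : ℕ} (χ : (hypercube n).edgeSet → Fin r) :
    IsPolychromatic G χ ↔ IsPolychromatic G' χ := by
  constructor
  · intro h H ⟨ψ⟩
    exact h H ⟨φ.trans ψ⟩
  · intro h H ⟨ψ⟩
    exact h H ⟨φ.symm.trans ψ⟩

/-- The iso between the hook graph and the corresponding subgraph of the cube. -/
def hookIso (r : ℕ) : hook r ≃g (SimpleGraph.toSubgraph (hook r) (hook_le r)).coe where
  toFun x := ⟨x, Set.mem_univ x⟩
  invFun x := x.1
  left_inv _ := rfl
  right_inv _ := rfl
  map_rel_iff' := Iff.rfl

end Pool.Agent.Helper36.Poly
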